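import Pool.Agent.Helper57.SS.Goals

/-!
# Project SS (MP_9a4587_an), packet WC: concentration of random exponential sums
-/

set_option autoImplicit false

namespace Pool.Agent.Helper94.SS

open MeasureTheory ProbabilityTheory Filter Topology
open Pool.Agent.Helper49.RS Pool.Agent.Helper57.SS

lemma norm_ex (s t : ℝ) (m n : ℕ) : ‖ex s t m n‖ = 1 := by
  unfold ex
  rw [show 2 * (Real.pi:ℂ) * Complex.I * (s * m + t * n) =
    ((2 * Real.pi * (s * m + t * n) : ℝ) : ℂ) * Complex.I by push_cast; ring]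
  exact Complex.norm_exp_ofReal_mul_I _

lemma ex_sub_le (s t s' t' : ℝ) (m n : ℕ) :
    ‖ex s t m n - ex s' t' m n‖ ≤ 2 * Real.pi * (|s - s'| * m + |t - t'| * n) := by
  have h1 : ex s t m n - ex s' t' m n = ex s' t' m n *
      (Complex.exp (Complex.I * ((2 * Real.pi * ((s - s') * m + (t - t') * n) : ℝ) : ℂ)) - 1) := by
    unfold ex
    rw [mul_sub, ← Complex.exp_add, mul_one]
    congr 2
    push_cast
    ring
  rw [h1, norm_mul, norm_ex, one_mul]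
  refine Real.norm_exp_I_mul_ofReal_sub_one_le.trans ?_
  rw [Real.norm_eq_abs, abs_mul, abs_of_pos Real.two_pi_pos]
  refine mul_le_mul_of_nonneg_left ?_ Real.two_pi_pos.le
  refine (abs_add_le _ _).trans ?_
  rw [abs_mul, abs_mul, Nat.abs_cast, Nat.abs_cast]

lemma ex_fract (s t : ℝ) (m n : ℕ) : ex s t m n = ex (Int.fract s) (Int.fract t) m n := by
  have h1 : ex s t m n = ex (Int.fract s) (Int.fract t) m n *
      Complex.exp (((⌊s⌋ * m + ⌊t⌋ * n : ℤ) : ℂ) * (2 * Real.pi * Complex.I)) := by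
    unfold ex
    rw [← Complex.exp_add]
    congr 1
    have hs : (s : ℂ) = ((⌊s⌋ : ℝ) : ℂ) + ((Int.fract s : ℝ) : ℂ) := by
      rw [← Complex.ofReal_add, Int.floor_add_fract]
    have ht : (t : ℂ) = ((⌊t⌋ : ℝ) : ℂ) + ((Int.fract t : ℝ) : ℂ) := by
      rw [← Complex.ofReal_add, Int.floor_add_fract]
    push_cast at hs ht ⊢
    linear_combination (2 * (Real.pi : ℂ) * Complex.I * m) * hs +
      (2 * (Real.pi : ℂ) * Complex.I * n) * ht
  rw [h1, Complex.exp_int_mul_two_pi_mul_I, mul_one]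

noncomputable def prt (u v : Bool) (z : ℂ) : ℝ := (if u then 1 else -1) * (if v then z.re else z.im)

lemma abs_prt_le (u v : Bool) (z : ℂ) : |prt u v z| ≤ ‖z‖ := by
  unfold prt
  have h1 := Complex.abs_re_le_norm z
  have h2 := Complex.abs_im_le_norm z
  cases u <;> cases v <;> simpa [abs_mul]

lemma prt_sum (u v : Bool) (M : ℕ) (x : ℕ → ℝ) (w : ℕ → ℂ) :
    ∑ n ∈ Finset.range M, x n * prt u v (w n) =
      prt u v (∑ n ∈ Finset.range M, ((x n : ℝ) : ℂ) * w n) := by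
  unfold prt
  rw [Complex.re_sum, Complex.im_sum]
  cases u <;> cases v <;>
    simp only [if_true, if_false, Bool.false_eq_true, Complex.re_ofReal_mul, Complex.im_ofReal_mul,
      Finset.mul_sum] <;>
    exact Finset.sum_congr rfl fun n _ => by ring

lemma norm_le_of_prt (z : ℂ) (B : ℝ) (h : ∀ u v, prt u v z ≤ B) : ‖z‖ ≤ 2 * B := by
  have h1 := h true true
  have h2 := h true false
  have h3 := h false true
  have h4 := h false false
  simp only [prt, if_true, if_false, Bool.false_eq_true] at h1 h2 h3 h4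
  have h5 : |z.re| ≤ B := abs_le.mpr ⟨by linarith, by linarith⟩
  have h6 : |z.im| ≤ B := abs_le.mpr ⟨by linarith, by linarith⟩
  linarith [Complex.norm_le_abs_re_add_abs_im z]

/-- the mesh of the grid -/
def gl (D M : ℕ) : ℕ := (M + 2) ^ (D + 3)

lemma summ (D : ℕ) : Summable fun M : ℕ =>
    ∑ _i ∈ (Finset.range (gl D M + 1) ×ˢ (Finset.range (gl D M + 1) ×ˢ
      (Finset.univ : Finset (Bool × Bool)))), Real.exp (-((2 * D + 10) * Real.log ((M : ℝ) + 2))) := by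
  refine summable_of_le_sq _ 16 (fun L => Finset.sum_nonneg fun i _ => (Real.exp_pos _).le) ?_
  filter_upwards [eventually_ge_atTop 1] with M hM
  have hM' : (1:ℝ) ≤ M := by exact_mod_cast hM
  have hp : (0:ℝ) < (M:ℝ) + 2 := by linarith
  have e1 : Real.exp (-((2 * D + 10) * Real.log ((M : ℝ) + 2))) = (((M:ℝ) + 2) ^ (2 * D + 10))⁻¹ := by
    rw [Real.exp_neg, mul_comm, Real.exp_mul, Real.exp_log hp]
    congr 1
    rw [← Real.rpow_natCast]
    congr 1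
    push_cast
    ring
  rw [Finset.sum_const, e1]
  have hc : ((Finset.range (gl D M + 1) ×ˢ (Finset.range (gl D M + 1) ×ˢ
      (Finset.univ : Finset (Bool × Bool)))).card : ℝ) = ((gl D M : ℝ) + 1) * (((gl D M : ℝ) + 1) * 4) := by
    rw [Finset.card_product, Finset.card_product, Finset.card_range, Finset.card_univ,
      Fintype.card_prod, Fintype.card_bool]
    push_cast
    ring
  rw [nsmul_eq_mul, hc]
  have hg : (gl D M : ℝ) = ((M:ℝ) + 2) ^ (D + 3) := by unfold gl; push_cast; ring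
  have hg1 : (1:ℝ) ≤ ((M:ℝ) + 2) ^ (D + 3) := one_le_pow₀ (by linarith)
  rw [hg]
  set y : ℝ := ((M:ℝ) + 2) ^ (D + 3) with hy
  have h2 : ((M:ℝ) + 2) ^ (2 * D + 10) = y * y * ((M:ℝ) + 2) ^ 4 := by
    rw [hy]; ring
  have hy0 : 0 < y := by positivity
  rw [h2]
  have h3 : (y + 1) * ((y + 1) * 4) ≤ 16 * (y * y) := by nlinarith
  calc (y + 1) * ((y + 1) * 4) * (y * y * ((M:ℝ) + 2) ^ 4)⁻¹
      ≤ 16 * (y * y) * (y * y * ((M:ℝ) + 2) ^ 4)⁻¹ := by gcongr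
    _ = 16 * (((M:ℝ) + 2) ^ 4)⁻¹ := by field_simp
    _ ≤ 16 * ((M:ℝ) ^ 2)⁻¹ := by
        refine mul_le_mul_of_nonneg_left ?_ (by norm_num)
        refine inv_anti₀ (by positivity) ?_
        calc (M:ℝ) ^ 2 ≤ ((M:ℝ) + 2) ^ 2 := by gcongr; linarith
          _ ≤ ((M:ℝ) + 2) ^ 4 := pow_le_pow_right₀ (by linarith) (by norm_num)

/-- the numerical estimate of the right side -/
lemma num_ev (b : ℝ) (_hb0 : 0 < b) (hb1 : b < 1) (D : ℕ) (ε : ℝ) (hε : 0 < ε) :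
    ∀ᶠ M : ℕ in atTop, 1 ≤ M ∧ 4 * Real.pi / ((M:ℝ) + 2) ≤ ε / 2 * (M:ℝ) ^ (1 - b) ∧
      2 * (((M:ℝ) + 1) ^ (-((1 - b) / 4)) * ((M:ℝ) ^ (1 - b) / (1 - b)) +
        (2 * D + 10) * Real.log ((M : ℝ) + 2) / ((M:ℝ) + 1) ^ (-((1 - b) / 4))) ≤
        ε / 2 * (M:ℝ) ^ (1 - b) := by
  set δ : ℝ := (1 - b) / 4 with hδ
  have hδ0 : 0 < δ := by rw [hδ]; linarith
  have hδ1 : δ ≤ 1 := by rw [hδ]; linarith
  have h4 : 1 - b = 4 * δ := by rw [hδ]; ring
  have h1b : 0 < 1 - b := by linarith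
  -- `lam → 0`
  have t1 : Tendsto (fun M : ℕ => ((M:ℝ) + 1) ^ (-δ)) atTop (𝓝 0) := prb_tendsto δ hδ0
  have e1 := (t1.eventually_le_const (show (0:ℝ) < (1 - b) * ε / 8 by positivity))
  have e2 := ev_pow (8 * ((2 * D + 10) * (9 / δ)) / ε) (2 * δ) (4 * δ) (by linarith)
  have e3 := (tendsto_natCast_atTop_atTop (R := ℝ)).eventually_ge_atTop (8 * Real.pi / ε)
  filter_upwards [e1, e2, e3, eventually_ge_atTop 1] with M a1 a2 a3 a4
  have hM : (1:ℝ) ≤ M := by exact_mod_cast a4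
  have hM0 : (0:ℝ) < M := by linarith
  have hpow1 : 1 ≤ (M:ℝ) ^ (1 - b) := Real.one_le_rpow hM h1b.le
  refine ⟨a4, ?_, ?_⟩
  · have : 4 * Real.pi / ((M:ℝ) + 2) ≤ ε / 2 := by
      rw [div_le_iff₀ (by linarith)]
      rw [div_le_iff₀ hε] at a3
      nlinarith
    calc _ ≤ ε / 2 := this
      _ ≤ ε / 2 * (M:ℝ) ^ (1 - b) := le_mul_of_one_le_right (by positivity) hpow1
  · have hlam : 0 < ((M:ℝ) + 1) ^ (-δ) := Real.rpow_pos_of_pos (by linarith) _
    have b1 : ((M:ℝ) + 1) ^ (-δ) * ((M:ℝ) ^ (1 - b) / (1 - b)) ≤ ε / 8 * (M:ℝ) ^ (1 - b) := by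
      calc _ ≤ (1 - b) * ε / 8 * ((M:ℝ) ^ (1 - b) / (1 - b)) := by gcongr
        _ = ε / 8 * (M:ℝ) ^ (1 - b) := by field_simp
    have c1 : ((M:ℝ) + 2) ^ δ ≤ 3 * (M:ℝ) ^ δ := by
      calc ((M:ℝ) + 2) ^ δ ≤ (3 * (M:ℝ)) ^ δ := Real.rpow_le_rpow (by positivity) (by linarith) hδ0.le
        _ = 3 ^ δ * (M:ℝ) ^ δ := Real.mul_rpow (by norm_num) hM0.le
        _ ≤ 3 * (M:ℝ) ^ δ := by
            have : (3:ℝ) ^ δ ≤ 3 ^ (1:ℝ) := Real.rpow_le_rpow_of_exponent_le (by norm_num) hδ1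
            rw [Real.rpow_one] at this
            gcongr
    have c2 : ((M:ℝ) + 1) ^ δ ≤ 3 * (M:ℝ) ^ δ :=
      (Real.rpow_le_rpow (by positivity) (by linarith) hδ0.le).trans c1
    have c3 : Real.log ((M : ℝ) + 2) ≤ 3 * (M:ℝ) ^ δ / δ :=
      (Real.log_le_rpow_div (by positivity) hδ0).trans (by gcongr)
    have c4 : 0 ≤ Real.log ((M : ℝ) + 2) := Real.log_nonneg (by linarith)
    have b2 : (2 * D + 10) * Real.log ((M : ℝ) + 2) / ((M:ℝ) + 1) ^ (-δ) ≤ ε / 8 * (M:ℝ) ^ (1 - b) := by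
      rw [Real.rpow_neg (by positivity), div_inv_eq_mul]
      have d1 : (2 * (D:ℝ) + 10) * Real.log ((M : ℝ) + 2) * ((M:ℝ) + 1) ^ δ ≤
          (2 * (D:ℝ) + 10) * (3 * (M:ℝ) ^ δ / δ) * (3 * (M:ℝ) ^ δ) := by gcongr
      have d2 : (M:ℝ) ^ δ * (M:ℝ) ^ δ = (M:ℝ) ^ (2 * δ) := by
        rw [← Real.rpow_add hM0]; congr 1; ring
      have d3 : (2 * (D:ℝ) + 10) * (3 * (M:ℝ) ^ δ / δ) * (3 * (M:ℝ) ^ δ) =
          (2 * (D:ℝ) + 10) * (9 / δ) * (M:ℝ) ^ (2 * δ) := by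
        rw [← d2]; field_simp; ring
      rw [h4]
      have d4 : 8 * ((2 * (D:ℝ) + 10) * (9 / δ)) / ε * (M:ℝ) ^ (2 * δ) * (ε / 8) ≤
          (M:ℝ) ^ (4 * δ) * (ε / 8) := mul_le_mul_of_nonneg_right a2 (by positivity)
      have d5 : 8 * ((2 * (D:ℝ) + 10) * (9 / δ)) / ε * (M:ℝ) ^ (2 * δ) * (ε / 8) =
          (2 * (D:ℝ) + 10) * (9 / δ) * (M:ℝ) ^ (2 * δ) := by field_simp
      linarith
    linarith

theorem gWC : G_WC := by
  intro b hb0 hb1 Ω _ P _ X F A hX hA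
  rw [ae_all_iff]
  intro D
  set δ : ℝ := (1 - b) / 4 with hδ
  have hδ0 : 0 < δ := by rw [hδ]; linarith
  have key := bern_bc hX (ι := ℕ × ℕ × Bool × Bool)
    (fun M => Finset.range (gl D M + 1) ×ˢ (Finset.range (gl D M + 1) ×ˢ
      (Finset.univ : Finset (Bool × Bool)))) (fun M => M)
    (fun M i p ω => ((M:ℝ) + 1) ^ (-δ) * prt i.2.2.1 i.2.2.2
      (ex ((i.1 : ℝ) / gl D M) ((i.2.1 : ℝ) / gl D M) (A p ω) (p + 1)))
    (fun M _ => (2 * D + 10) * Real.log ((M : ℝ) + 2)) (fun M i p => ?_) (summ D)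
  swap
  · have h1 : Measurable (fun a : ℕ => ((M:ℝ) + 1) ^ (-δ) * prt i.2.2.1 i.2.2.2
      (ex ((i.1 : ℝ) / gl D M) ((i.2.1 : ℝ) / gl D M) a (p + 1))) := measurable_of_countable _
    exact h1.comp (hA p)
  filter_upwards [key] with ω hω hAM ε hε
  filter_upwards [hω, hAM, num_ev b hb0 hb1 D ε hε] with M hM hAM' hnum s t
  obtain ⟨hM1, hn1, hn2⟩ := hnum
  rw [← hδ] at hn2
  have hMr : (1:ℝ) ≤ M := by exact_mod_cast hM1
  have hlam : 0 < ((M:ℝ) + 1) ^ (-δ) := Real.rpow_pos_of_pos (by linarith) _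
  have hlam1 : ((M:ℝ) + 1) ^ (-δ) ≤ 1 :=
    Real.rpow_le_one_of_one_le_of_nonpos (by linarith) (by linarith)
  have hq0 : ∀ n, 0 ≤ prb b n := hX.q0
  have hq1 : ∀ n, prb b n ≤ 1 := hX.q1
  have hgl0 : (0:ℝ) < (gl D M : ℝ) := by unfold gl; positivity
  -- the sum at a point of the grid
  have grid : ∀ i j : ℕ, i ≤ gl D M → j ≤ gl D M →
      ‖∑ n ∈ Finset.range M, (((X n ω - prb b n : ℝ)) : ℂ) *
        ex ((i : ℝ) / gl D M) ((j : ℝ) / gl D M) (A n ω) (n + 1)‖ ≤ ε / 2 * (M:ℝ) ^ (1 - b) := by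
    intro i j hi hj
    refine le_trans (norm_le_of_prt _ (((M:ℝ) + 1) ^ (-δ) * ((M:ℝ) ^ (1 - b) / (1 - b)) +
        (2 * D + 10) * Real.log ((M : ℝ) + 2) / ((M:ℝ) + 1) ^ (-δ)) ?_) hn2
    intro u v
    have h1 := hM (i, j, u, v) (by
      simp only [Finset.mem_product, Finset.mem_range, Finset.mem_univ, and_true]
      omega) (by
      intro p _
      rw [abs_mul, abs_of_pos hlam]
      have := abs_prt_le u v (ex ((i : ℝ) / gl D M) ((j : ℝ) / gl D M) (A p ω) (p + 1))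
      rw [norm_ex] at this
      calc _ ≤ 1 * 1 := mul_le_mul hlam1 this (abs_nonneg _) zero_le_one
        _ = 1 := one_mul 1)
    simp only at h1
    have h2 : ∑ p ∈ Finset.range M, (X p ω - prb b p) * (((M:ℝ) + 1) ^ (-δ) * prt u v
        (ex ((i : ℝ) / gl D M) ((j : ℝ) / gl D M) (A p ω) (p + 1))) =
        ((M:ℝ) + 1) ^ (-δ) * prt u v (∑ n ∈ Finset.range M, (((X n ω - prb b n : ℝ)) : ℂ) *
        ex ((i : ℝ) / gl D M) ((j : ℝ) / gl D M) (A n ω) (n + 1)) := by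
      rw [← prt_sum, Finset.mul_sum]
      exact Finset.sum_congr rfl fun n _ => by ring
    rw [h2] at h1
    have h3 : ∑ p ∈ Finset.range M, prb b p * (((M:ℝ) + 1) ^ (-δ) * prt u v
        (ex ((i : ℝ) / gl D M) ((j : ℝ) / gl D M) (A p ω) (p + 1))) ^ 2 ≤
        (((M:ℝ) + 1) ^ (-δ)) ^ 2 * ((M:ℝ) ^ (1 - b) / (1 - b)) := by
      have h5 : ∑ p ∈ Finset.range M, prb b p ≤ (M:ℝ) ^ (1 - b) / (1 - b) :=
        sum_rpow_le b hb0.le hb1 M
      refine le_trans ?_ (mul_le_mul_of_nonneg_left h5 (sq_nonneg _))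
      rw [Finset.mul_sum]
      refine Finset.sum_le_sum fun p _ => ?_
      have h6 := abs_prt_le u v (ex ((i : ℝ) / gl D M) ((j : ℝ) / gl D M) (A p ω) (p + 1))
      rw [norm_ex] at h6
      have h7 : (prt u v (ex ((i : ℝ) / gl D M) ((j : ℝ) / gl D M) (A p ω) (p + 1))) ^ 2 ≤ 1 := by
        rw [← sq_abs]
        exact pow_le_one₀ (abs_nonneg _) h6
      calc _ = prb b p * (((M:ℝ) + 1) ^ (-δ)) ^ 2 *
            (prt u v (ex ((i : ℝ) / gl D M) ((j : ℝ) / gl D M) (A p ω) (p + 1))) ^ 2 := by ring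
        _ ≤ prb b p * (((M:ℝ) + 1) ^ (-δ)) ^ 2 * 1 :=
            mul_le_mul_of_nonneg_left h7 (mul_nonneg (hq0 p) (sq_nonneg _))
        _ = _ := by ring
    set z := ∑ n ∈ Finset.range M, (((X n ω - prb b n : ℝ)) : ℂ) *
        ex ((i : ℝ) / gl D M) ((j : ℝ) / gl D M) (A n ω) (n + 1) with hz
    set lam := ((M:ℝ) + 1) ^ (-δ) with hlamd
    have h8 : lam * prt u v z ≤ lam * (lam * ((M:ℝ) ^ (1 - b) / (1 - b)) +
        (2 * D + 10) * Real.log ((M : ℝ) + 2) / lam) := by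
      have : lam * (lam * ((M:ℝ) ^ (1 - b) / (1 - b)) +
        (2 * D + 10) * Real.log ((M : ℝ) + 2) / lam) = lam ^ 2 * ((M:ℝ) ^ (1 - b) / (1 - b)) +
        (2 * D + 10) * Real.log ((M : ℝ) + 2) := by
        field_simp
      rw [this]
      linarith
    exact le_of_mul_le_mul_left h8 hlam
  -- the nearest point of the grid
  have near : ∀ r : ℝ, ∃ i : ℕ, i ≤ gl D M ∧ |Int.fract r - (i : ℝ) / gl D M| ≤ 1 / gl D M := by
    intro r
    have hr0 := Int.fract_nonneg r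
    have hr1 := Int.fract_lt_one r
    refine ⟨⌊Int.fract r * gl D M⌋₊, ?_, ?_⟩
    · have h1 : (⌊Int.fract r * gl D M⌋₊ : ℝ) ≤ Int.fract r * gl D M := Nat.floor_le (by positivity)
      have h2 : Int.fract r * gl D M ≤ gl D M := by nlinarith
      exact_mod_cast h1.trans h2
    · have h1 : (⌊Int.fract r * gl D M⌋₊ : ℝ) ≤ Int.fract r * gl D M := Nat.floor_le (by positivity)
      have h2 : Int.fract r * gl D M < ⌊Int.fract r * gl D M⌋₊ + 1 := Nat.lt_floor_add_one _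
      have h3 : Int.fract r - (⌊Int.fract r * gl D M⌋₊ : ℝ) / gl D M =
          (Int.fract r * gl D M - ⌊Int.fract r * gl D M⌋₊) / gl D M := by field_simp
      rw [h3, abs_of_nonneg (div_nonneg (by linarith) hgl0.le)]
      gcongr
      linarith
  obtain ⟨i, hi, hi'⟩ := near s
  obtain ⟨j, hj, hj'⟩ := near t
  have h1 := grid i j hi hj
  have h2 : ‖∑ n ∈ Finset.range M, (((X n ω - prb b n : ℝ)) : ℂ) * ex s t (A n ω) (n + 1) -
      ∑ n ∈ Finset.range M, (((X n ω - prb b n : ℝ)) : ℂ) *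
        ex ((i : ℝ) / gl D M) ((j : ℝ) / gl D M) (A n ω) (n + 1)‖ ≤ 4 * Real.pi / ((M:ℝ) + 2) := by
    rw [← Finset.sum_sub_distrib]
    have h3 : ∀ n ∈ Finset.range M, ‖(((X n ω - prb b n : ℝ)) : ℂ) * ex s t (A n ω) (n + 1) -
        (((X n ω - prb b n : ℝ)) : ℂ) * ex ((i : ℝ) / gl D M) ((j : ℝ) / gl D M) (A n ω) (n + 1)‖ ≤
        4 * Real.pi / ((M:ℝ) + 2) ^ 2 := by
      intro n hn
      rw [Finset.mem_range] at hn
      rw [← mul_sub, norm_mul, ex_fract s t]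
      have h4 : ‖(((X n ω - prb b n : ℝ)) : ℂ)‖ ≤ 1 := by
        rw [Complex.norm_real, Real.norm_eq_abs]
        rcases hX.zo n ω with h | h <;> rw [h, abs_le] <;>
          constructor <;> linarith [hq0 n, hq1 n]
      have h5 := ex_sub_le (Int.fract s) (Int.fract t) ((i : ℝ) / gl D M) ((j : ℝ) / gl D M)
        (A n ω) (n + 1)
      have h6 : (A n ω : ℝ) ≤ ((M:ℝ) + 2) ^ (D + 1) := by
        have h7 : (A n ω : ℝ) ≤ (M:ℝ) ^ D := by exact_mod_cast hAM' n hn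
        calc (A n ω : ℝ) ≤ (M:ℝ) ^ D := h7
          _ ≤ ((M:ℝ) + 2) ^ D := by gcongr; linarith
          _ ≤ ((M:ℝ) + 2) ^ (D + 1) := pow_le_pow_right₀ (by linarith) (by omega)
      have h7 : (((n + 1 : ℕ)) : ℝ) ≤ ((M:ℝ) + 2) ^ (D + 1) := by
        have h8 : (((n + 1 : ℕ)) : ℝ) ≤ M := by exact_mod_cast hn
        calc (((n + 1 : ℕ)) : ℝ) ≤ ((M:ℝ) + 2) ^ 1 := by rw [pow_one]; linarith
          _ ≤ ((M:ℝ) + 2) ^ (D + 1) := pow_le_pow_right₀ (by linarith) (by omega)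
      have h9 : 2 * Real.pi * (|Int.fract s - (i : ℝ) / gl D M| * (A n ω : ℝ) +
          |Int.fract t - (j : ℝ) / gl D M| * ((n + 1 : ℕ) : ℝ)) ≤
          2 * Real.pi * (1 / gl D M * ((M:ℝ) + 2) ^ (D + 1) + 1 / gl D M * ((M:ℝ) + 2) ^ (D + 1)) := by
        have := Real.pi_pos
        gcongr
      have h10 : 2 * Real.pi * (1 / gl D M * ((M:ℝ) + 2) ^ (D + 1) +
          1 / gl D M * ((M:ℝ) + 2) ^ (D + 1)) = 4 * Real.pi / ((M:ℝ) + 2) ^ 2 := by
        have hg : (gl D M : ℝ) = ((M:ℝ) + 2) ^ (D + 1) * ((M:ℝ) + 2) ^ 2 := by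
          unfold gl; push_cast; ring
        rw [hg]
        field_simp
        ring
      calc _ ≤ 1 * (4 * Real.pi / ((M:ℝ) + 2) ^ 2) :=
            mul_le_mul h4 ((h5.trans h9).trans h10.le) (norm_nonneg _) zero_le_one
        _ = _ := one_mul _
    refine (norm_sum_le_of_le _ h3).trans ?_
    rw [Finset.sum_const, Finset.card_range, nsmul_eq_mul]
    have := Real.pi_pos
    rw [show (M:ℝ) * (4 * Real.pi / ((M:ℝ) + 2) ^ 2) = (4 * Real.pi / ((M:ℝ) + 2)) * (M / ((M:ℝ) + 2)) by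
      field_simp]
    exact mul_le_of_le_one_right (by positivity) ((div_le_one (by positivity)).mpr (by linarith))
  calc _ = ‖(∑ n ∈ Finset.range M, (((X n ω - prb b n : ℝ)) : ℂ) * ex s t (A n ω) (n + 1) -
      ∑ n ∈ Finset.range M, (((X n ω - prb b n : ℝ)) : ℂ) *
        ex ((i : ℝ) / gl D M) ((j : ℝ) / gl D M) (A n ω) (n + 1)) +
      ∑ n ∈ Finset.range M, (((X n ω - prb b n : ℝ)) : ℂ) *
        ex ((i : ℝ) / gl D M) ((j : ℝ) / gl D M) (A n ω) (n + 1)‖ := by rw [sub_add_cancel]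
    _ ≤ 4 * Real.pi / ((M:ℝ) + 2) + ε / 2 * (M:ℝ) ^ (1 - b) := (norm_add_le _ _).trans (add_le_add h2 h1)
    _ ≤ ε * (M:ℝ) ^ (1 - b) := by linarith

end Pool.Agent.Helper94.SS
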