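import Pool.Agent.Helper57.SS.Goals2

/-!
# Project SS part 2 (MP_9a4587_an), packet K4: the conditional measures are ergodic
-/

set_option autoImplicit false

namespace Pool.Agent.Helper94.SS

open MeasureTheory ProbabilityTheory Filter Topology
open Pool.Agent.Helper57.SS

/-- the real indicator function -/
noncomputable def ia {X : Type} (A : Set X) : X → ℝ := A.indicator (fun _ => (1 : ℝ))

lemma ia_meas {X : Type} [MeasurableSpace X] {A : Set X} (hA : MeasurableSet A) : Measurable (ia A) :=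
  measurable_const.indicator hA

lemma ia_abs {X : Type} (A : Set X) (x : X) : |ia A x| ≤ 1 := by
  unfold ia
  by_cases h : x ∈ A
  · rw [Set.indicator_of_mem h]; norm_num
  · rw [Set.indicator_of_notMem h]; norm_num

lemma ia_int {X : Type} [MeasurableSpace X] (μ : Measure X) {A : Set X} (hA : MeasurableSet A) :
    ∫ x, ia A x ∂μ = μ.real A := by
  unfold ia
  rw [integral_indicator_const _ hA]
  simp

lemma iter_mem {X : Type} {T : X → X} {E : Set X} (h : T ⁻¹' E = E) (k : ℕ) (x : X) :
    T^[k] x ∈ E ↔ x ∈ E := by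
  induction k generalizing x with
  | zero => rfl
  | succ k ih =>
    rw [Function.iterate_succ_apply, ih]
    exact Set.ext_iff.mp h x

lemma erg_of_avg {X : Type} [m0 : MeasurableSpace X] (μ : Measure X) [IsProbabilityMeasure μ]
    (T : X → X) (hT : MeasurePreserving T μ μ) (𝒜 : Set (Set X))
    (hgen : m0 = MeasurableSpace.generateFrom 𝒜) (hpi : IsPiSystem 𝒜)
    (hmeas : ∀ A ∈ 𝒜, MeasurableSet A)
    (hav : ∀ A ∈ 𝒜, ∀ᵐ v ∂μ, Tendsto (fun n : ℕ => (n : ℝ)⁻¹ * ∑ k ∈ Finset.range n,
      ia A (T^[k] v)) atTop (𝓝 (∫ x, ia A x ∂μ))) : Ergodic T μ := by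
  refine ⟨hT, ⟨fun E hE hTE => ?_⟩⟩
  have key : ∀ A ∈ 𝒜, μ.real (A ∩ E) = μ.real E * μ.real A := by
    intro A hA
    have hAm := hmeas A hA
    have hint : ∀ B : Set X, MeasurableSet B → ∀ k : ℕ, Integrable (fun x => ia E x * ia B (T^[k] x)) μ := by
      intro B hB k
      refine Integrable.of_bound
        ((ia_meas hE).mul ((ia_meas hB).comp (hT.iterate k).measurable)).aestronglyMeasurable 1
        (Eventually.of_forall fun x => ?_)
      rw [Real.norm_eq_abs, abs_mul]
      calc |ia E x| * |ia B (T^[k] x)| ≤ 1 * 1 :=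
            mul_le_mul (ia_abs _ _) (ia_abs _ _) (abs_nonneg _) zero_le_one
        _ = 1 := one_mul 1
    have hk : ∀ k : ℕ, ∫ x, ia E x * ia A (T^[k] x) ∂μ = μ.real (A ∩ E) := by
      intro k
      have h1 : (fun x => ia E x * ia A (T^[k] x)) = fun x => ia (A ∩ E) (T^[k] x) := by
        funext x
        by_cases h : x ∈ E
        · have hE' : T^[k] x ∈ E := (iter_mem hTE k x).mpr h
          by_cases h' : T^[k] x ∈ A
          · have hh : T^[k] x ∈ A ∩ E := ⟨h', hE'⟩
            simp only [ia, Set.indicator_of_mem h, Set.indicator_of_mem h', Set.indicator_of_mem hh,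
              one_mul]
          · have hh : T^[k] x ∉ A ∩ E := fun hh => h' hh.1
            simp only [ia, Set.indicator_of_notMem h', Set.indicator_of_notMem hh, mul_zero]
        · have hh : T^[k] x ∉ A ∩ E := fun hh => h ((iter_mem hTE k x).mp hh.2)
          simp only [ia, Set.indicator_of_notMem h, Set.indicator_of_notMem hh, zero_mul]
      rw [h1, Pool.Agent.Helper49.RS.int_comp (hT.iterate k) _ (ia_meas (hAm.inter hE)),
        ia_int μ (hAm.inter hE)]
    have hn : ∀ n : ℕ, 1 ≤ n → ∫ x, ia E x * ((n : ℝ)⁻¹ * ∑ k ∈ Finset.range n, ia A (T^[k] x)) ∂μ =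
        μ.real (A ∩ E) := by
      intro n hn
      have h1 : (fun x => ia E x * ((n : ℝ)⁻¹ * ∑ k ∈ Finset.range n, ia A (T^[k] x))) =
          fun x => (n : ℝ)⁻¹ * ∑ k ∈ Finset.range n, (ia E x * ia A (T^[k] x)) := by
        funext x
        rw [← Finset.mul_sum]
        ring
      rw [h1, integral_const_mul, integral_finsetSum _ (fun k _ => hint A hAm k)]
      rw [Finset.sum_congr rfl (fun k _ => hk k), Finset.sum_const, Finset.card_range, nsmul_eq_mul]
      have : (n : ℝ) ≠ 0 := by
        have : (1 : ℝ) ≤ n := by exact_mod_cast hn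
        linarith
      field_simp
    have hlim : Tendsto (fun n : ℕ => ∫ x, ia E x * ((n : ℝ)⁻¹ * ∑ k ∈ Finset.range n,
        ia A (T^[k] x)) ∂μ) atTop (𝓝 (∫ x, ia E x * (∫ y, ia A y ∂μ) ∂μ)) := by
      refine tendsto_integral_of_dominated_convergence (fun _ => 1) (fun n => ?_)
        (integrable_const 1) (fun n => ?_) ?_
      · exact ((ia_meas hE).mul (measurable_const.mul (Finset.measurable_sum _ fun k _ =>
          (ia_meas hAm).comp (hT.iterate k).measurable))).aestronglyMeasurable
      · refine Eventually.of_forall fun x => ?_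
        rw [Real.norm_eq_abs, abs_mul]
        have h1 : |(n : ℝ)⁻¹ * ∑ k ∈ Finset.range n, ia A (T^[k] x)| ≤ 1 := by
          rw [abs_mul, abs_inv, Nat.abs_cast]
          have h2 : |∑ k ∈ Finset.range n, ia A (T^[k] x)| ≤ n := by
            refine (Finset.abs_sum_le_sum_abs _ _).trans ?_
            calc _ ≤ ∑ _k ∈ Finset.range n, (1 : ℝ) := Finset.sum_le_sum fun k _ => ia_abs _ _
              _ = n := by simp
          calc (n : ℝ)⁻¹ * |∑ k ∈ Finset.range n, ia A (T^[k] x)| ≤ (n : ℝ)⁻¹ * n := by gcongr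
            _ ≤ 1 := inv_mul_le_one
        calc |ia E x| * |(n : ℝ)⁻¹ * ∑ k ∈ Finset.range n, ia A (T^[k] x)| ≤ 1 * 1 :=
              mul_le_mul (ia_abs _ _) h1 (abs_nonneg _) zero_le_one
          _ = 1 := one_mul 1
      · filter_upwards [hav A hA] with x hx
        exact hx.const_mul _
    have hlim2 : Tendsto (fun n : ℕ => ∫ x, ia E x * ((n : ℝ)⁻¹ * ∑ k ∈ Finset.range n,
        ia A (T^[k] x)) ∂μ) atTop (𝓝 (μ.real (A ∩ E))) := by
      refine tendsto_const_nhds.congr' ?_
      filter_upwards [eventually_ge_atTop 1] with n hn1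
      exact (hn n hn1).symm
    have h9 := tendsto_nhds_unique hlim2 hlim
    rw [integral_mul_const, ia_int μ hE, ia_int μ hAm] at h9
    exact h9
  have hmeasures : μ.restrict E = (μ E) • μ := by
    have : IsFiniteMeasure (μ.restrict E) := inferInstance
    refine ext_of_generate_finite 𝒜 hgen hpi (fun A hA => ?_) ?_
    · rw [Measure.restrict_apply (hmeas A hA), Measure.smul_apply, smul_eq_mul]
      have h1 := key A hA
      have h2 : (μ (A ∩ E)).toReal = (μ E * μ A).toReal := by
        rw [ENNReal.toReal_mul]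
        exact h1
      exact (ENNReal.toReal_eq_toReal_iff' (measure_ne_top _ _)
        (ENNReal.mul_ne_top (measure_ne_top _ _) (measure_ne_top _ _))).mp h2
    · rw [Measure.restrict_apply_univ, Measure.smul_apply, smul_eq_mul, measure_univ, mul_one]
  have h1 : μ E = μ E * μ E := by
    have h2 := congrArg (fun m : Measure X => m E) hmeasures
    simp only [Measure.restrict_apply hE, Set.inter_self, Measure.smul_apply, smul_eq_mul] at h2
    exact h2
  rw [Filter.eventuallyConst_set]
  by_cases h0 : μ E = 0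
  · right
    exact measure_eq_zero_iff_ae_notMem.mp h0
  · left
    have h2 : μ E = 1 := by
      have h3 : μ E * 1 = μ E * μ E := by rw [mul_one]; exact h1
      exact ((ENNReal.mul_right_inj h0 (measure_ne_top _ _)).mp h3).symm
    exact mem_ae_iff_prob_eq_one hE |>.mpr h2

theorem gK4 : G_K4 := by
  intro hEB hK2 hK3 X m0 _ ν _ T hT
  obtain ⟨h1, h2, h3, h4, h5, h6⟩ := hK2 X ν T hT
  set 𝒜 : Set (Set X) := generateSetAlgebra (MeasurableSpace.countableGeneratingSet X) with h𝒜
  have hcount : 𝒜.Countable :=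
    countable_generateSetAlgebra MeasurableSpace.countable_countableGeneratingSet
  have hgen : m0 = MeasurableSpace.generateFrom 𝒜 := by
    rw [h𝒜, generateFrom_generateSetAlgebra_eq, MeasurableSpace.generateFrom_countableGeneratingSet]
  have hmeas : ∀ A ∈ 𝒜, MeasurableSet A := by
    intro A hA
    have h7 : MeasurableSet[MeasurableSpace.generateFrom 𝒜] A := MeasurableSpace.measurableSet_generateFrom hA
    rw [← hgen] at h7
    exact h7
  have hpi : IsPiSystem 𝒜 := by
    intro s hs t ht _
    exact isSetAlgebra_generateSetAlgebra.inter_mem hs ht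
  have key : ∀ᵐ u ∂ν, ∀ A ∈ 𝒜, ∀ᵐ v ∂(kap ν T u), Tendsto (fun n : ℕ => (n : ℝ)⁻¹ *
      ∑ k ∈ Finset.range n, ia A (T^[k] v)) atTop (𝓝 (∫ x, ia A x ∂(kap ν T u))) := by
    rw [ae_ball_iff hcount]
    intro A hA
    have hbd : Bd (ia A) := ⟨ia_meas (hmeas A hA), ia_abs A⟩
    have e1 : ∀ᵐ x ∂ν, Tendsto (fun n : ℕ => (n : ℝ)⁻¹ * ∑ k ∈ Finset.range n, ia A (T^[k] x)) atTop
        (𝓝 (∫ y, ia A y ∂(kap ν T x))) := by
      filter_upwards [hEB X ν T hT (ia A) hbd, h3 (ia A) hbd] with x hx1 hx2
      rw [hx2] at hx1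
      exact hx1
    filter_upwards [h6 _ e1, h5 (ia A) hbd] with u hu1 hu2
    filter_upwards [hu1, hu2] with v hv1 hv2
    rw [hv2] at hv1
    exact hv1
  filter_upwards [key, hK3 X ν T hT] with u hu1 hu2
  have := h1 u
  exact erg_of_avg (kap ν T u) T hu2 𝒜 hgen hpi hmeas hu1

end Pool.Agent.Helper94.SS
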